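import Pool.Agent.U68.TU.Stm

set_option autoImplicit false

/-!
# Project TU, package NORMDUAL: norms and self-duality of the left lattices
-/

namespace Pool.Agent.U395.TU

open NumberField Quaternion Pool.Agent.U68.TU

variable {K : Type} [Field K] [NumberField K]

lemma tp_ne (B : BQ K) {n : 𝓞 K} (h : TP (n : K)) : (n : K) ≠ 0 := by
  obtain ⟨φ, -, -⟩ := B.emb (Real.sqrt 2) Real.goldenRatio (by norm_num) Real.goldenRatio_sq
  intro h0
  have h1 := h φ
  rw [h0, map_zero] at h1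
  exact lt_irrefl _ h1

omit [NumberField K] in
lemma smul_re (c : K) (x : ℍ[K]) : (c • x).re = c * x.re := by
  simp

/-- the trace of `(n⁻¹ y x̄) w̄` -/
lemma trace_eq (n : K) (x y w : ℍ[K]) :
    2 * ((n⁻¹ • (y * star x)) * star w).re = n⁻¹ * (2 * (y * star (w * x)).re) := by
  rw [star_mul, smul_mul_assoc, smul_re, mul_assoc y]
  ring

theorem t_DUAL : S_ORD → S_DUAL := by
  intro hO K _ _ B I n hL
  obtain ⟨hmul, hadd, hstar, hsmul, hint, hone, -, -, hdual⟩ := hO K B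
  have hn : (n : K) ≠ 0 := tp_ne B hL.tp
  constructor
  · intro y hy
    have h1 : ∀ x ∈ I, InOS B ((n : K)⁻¹ • (y * star x)) := by
      intro x hx
      apply hdual
      intro w hw
      obtain ⟨t, ht⟩ := hy (w * x) (hL.mul w x hw hx)
      refine ⟨t, ?_⟩
      rw [trace_eq, ht, ← mul_assoc, inv_mul_cancel₀ hn, one_mul]
    obtain ⟨r, a, x, hx, hsum⟩ := hL.gen
    have h2 : y = ∑ k, (((a k : K) • ((n : K)⁻¹ • (y * star (x k)))) * x k) := by
      have h3 : ∀ k, (((a k : K) • ((n : K)⁻¹ • (y * star (x k)))) * x k) =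
          ((n : K)⁻¹ * ((a k : K) * normSq (x k))) • y := by
        intro k
        rw [smul_mul_assoc, smul_mul_assoc, mul_assoc, Quaternion.star_mul_self,
          Quaternion.mul_coe_eq_smul, smul_smul, smul_smul]
        congr 1
        ring
      simp_rw [h3]
      rw [← Finset.sum_smul, ← Finset.mul_sum, ← hsum, inv_mul_cancel₀ hn, one_smul]
    rw [h2]
    exact I.sum_mem fun k _ => hL.mul _ _ (hsmul (a k) _ (h1 (x k) (hx k))) (hx k)
  · intro x hx y hy
    refine ⟨(n : K)⁻¹ • (y * star x), ?_, by rw [smul_smul, mul_inv_cancel₀ hn, one_smul]⟩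
    apply hdual
    intro w hw
    have hwx := hL.mul w x hw hx
    obtain ⟨t1, h1⟩ := hL.dvd (y + w * x) (I.add_mem hy hwx)
    obtain ⟨t2, h2⟩ := hL.dvd y hy
    obtain ⟨t3, h3⟩ := hL.dvd (w * x) hwx
    refine ⟨t1 - t2 - t3, ?_⟩
    have h4 : 2 * (y * star (w * x)).re = (n : K) * (t1 - t2 - t3) := by
      have h5 := Quaternion.normSq_add y (w * x)
      rw [h1, h2, h3] at h5
      linear_combination -h5
    rw [trace_eq, h4, ← mul_assoc, inv_mul_cancel₀ hn, one_mul]
    push_cast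
    rfl

theorem t_NORM : S_GEN → S_ORD → S_NORM := by
  intro hG hO K _ _ B I hsub hmulI hbig
  obtain ⟨hmul, hadd, hstar, hsmul, hint, hone, -, -, hdual⟩ := hO K B
  let S : Set (𝓞 K) := {t | ∃ x ∈ I, normSq x = (t : K)}
  let J : Ideal (𝓞 K) := Ideal.span S
  have hJ : J ≠ ⊥ := by
    obtain ⟨m, hm, hmI⟩ := hbig
    intro h0
    have h1 : ((m : 𝓞 K) ^ 2) ∈ J := by
      apply Ideal.subset_span
      refine ⟨(m : ℍ[K]), hmI, ?_⟩
      rw [Quaternion.normSq_natCast]
      push_cast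
      rfl
    rw [h0, Ideal.mem_bot] at h1
    have h2 : (m : 𝓞 K) = 0 := pow_eq_zero_iff two_ne_zero |>.mp h1
    have h3 : m = 0 := by exact_mod_cast h2
    omega
  obtain ⟨g, hg, hJg⟩ := hG K B J hJ
  refine ⟨g, ⟨hsub, hmulI, hbig, hg, ?_, ?_⟩⟩
  · intro x hx
    obtain ⟨⟨t, ht⟩, -⟩ := hint x (hsub x hx)
    have h1 : t ∈ J := Ideal.subset_span ⟨x, hx, ht⟩
    rw [hJg, Ideal.mem_span_singleton] at h1
    obtain ⟨c, hc⟩ := h1
    refine ⟨c, ?_⟩
    rw [ht, hc]
    push_cast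
    rfl
  · have h1 : g ∈ J := by rw [hJg]; exact Ideal.mem_span_singleton_self g
    have h2 : g ∈ Submodule.span (𝓞 K) S := h1
    rw [Submodule.mem_span_set'] at h2
    obtain ⟨r, a, y, hy⟩ := h2
    have h3 : ∀ k, ∃ x ∈ I, normSq x = ((y k : 𝓞 K) : K) := fun k => (y k).2
    choose x hx hxy using h3
    refine ⟨r, a, x, hx, ?_⟩
    rw [← hy]
    simp only [hxy]
    push_cast
    rfl

end Pool.Agent.U395.TU
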